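import Pool.Agent.Helper32.FR.Defs

/-! # FR-A5: adding nodes above a chain -/

set_option autoImplicit false
set_option linter.unusedSectionVars false

namespace Pool.Agent.Helper32.FR

open Pool.Agent.Helper33.HM Pool.Agent.Helper94.BA

universe u

section A

variable {Ω : Type} [LinearOrder Ω]

/-- Below an element of the chain. -/
def h69_bel (p : TC Ω) (c : Finset Ω) (u : Ω) : Prop := u ∈ p.d ∧ ∃ w ∈ c, u = w ∨ p.R u w

theorem h69_bel_cmp (p : TC Ω) (c : Finset Ω) (hc : p.Chn c) {u v : Ω} (hu : h69_bel p c u)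
    (hv : h69_bel p c v) : u = v ∨ p.R u v ∨ p.R v u := by
  have key : ∀ {u v w w' : Ω}, u ∈ p.d → v ∈ p.d → w ∈ c → w' ∈ c → (u = w ∨ p.R u w) →
      (v = w' ∨ p.R v w') → (w = w' ∨ p.R w w') → u = v ∨ p.R u v ∨ p.R v u := by
    intro u v w w' hu hv hw hw' h1 h2 h3
    have hwd := hc.1 hw
    have hwd' := hc.1 hw'
    have h4 : u = w' ∨ p.R u w' := by
      rcases h1 with h1 | h1 <;> rcases h3 with h3 | h3
      · left; rw [h1, h3]
      · right; rw [h1]; exact h3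
      · right; rw [← h3]; exact h1
      · right; exact p.trans u hu w hwd w' hwd' h1 h3
    rcases h4 with h4 | h4 <;> rcases h2 with h2 | h2
    · left; rw [h4, h2]
    · right; right; rw [h4]; exact h2
    · right; left; rw [h2]; exact h4
    · exact p.tree u hu v hv w' hwd' h4 h2
  obtain ⟨hud, w, hw, h1⟩ := hu
  obtain ⟨hvd, w', hw', h2⟩ := hv
  rcases hc.2 w hw w' hw' with h3 | h3 | h3
  · exact key hud hvd hw hw' h1 h2 (Or.inl h3)
  · exact key hud hvd hw hw' h1 h2 (Or.inr h3)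
  · rcases key hvd hud hw' hw h2 h1 (Or.inr h3) with h | h | h
    · exact Or.inl h.symm
    · exact Or.inr (Or.inr h)
    · exact Or.inr (Or.inl h)

/-- New nodes above a chain. -/
def h69_add (p : TC Ω) (c : Finset Ω) (hc : p.Chn c) (S : Finset Ω)
    (hS : ∀ y ∈ S, ∀ x ∈ p.d, x < y) : TC Ω where
  d := S ∪ p.d
  R u v := (u ∈ p.d ∧ v ∈ p.d ∧ p.R u v) ∨ (v ∈ S ∧ h69_bel p c u)
  n := p.n
  a := p.a
  lt := by
    rintro x _ y _ (⟨h1, h2, h3⟩ | ⟨h1, h2⟩)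
    · exact p.lt x h1 y h2 h3
    · exact hS y h1 x h2.1
  trans := by
    rintro x _ y _ z _ (⟨h1, h2, h3⟩ | ⟨h1, h2⟩) (⟨k1, k2, k3⟩ | ⟨k1, k2⟩)
    · exact Or.inl ⟨h1, k2, p.trans x h1 y h2 z k2 h3 k3⟩
    · refine Or.inr ⟨k1, h1, ?_⟩
      obtain ⟨_, w, hw, h | h⟩ := k2
      · exact ⟨w, hw, Or.inr (h ▸ h3)⟩
      · exact ⟨w, hw, Or.inr (p.trans x h1 y h2 w (hc.1 hw) h3 h)⟩
    · exact absurd (hS y h1 y k1) (lt_irrefl _)
    · exact absurd (hS y h1 y k2.1) (lt_irrefl _)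
  tree := by
    rintro x _ y _ z _ (⟨h1, h2, h3⟩ | ⟨h1, h2⟩) (⟨k1, k2, k3⟩ | ⟨k1, k2⟩)
    · rcases p.tree x h1 y k1 z h2 h3 k3 with h | h | h
      · exact Or.inl h
      · exact Or.inr (Or.inl (Or.inl ⟨h1, k1, h⟩))
      · exact Or.inr (Or.inr (Or.inl ⟨k1, h1, h⟩))
    · exact absurd (hS z k1 z h2) (lt_irrefl _)
    · exact absurd (hS z h1 z k2) (lt_irrefl _)
    · rcases h69_bel_cmp p c hc h2 k2 with h | h | h
      · exact Or.inl h
      · exact Or.inr (Or.inl (Or.inl ⟨h2.1, k2.1, h⟩))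
      · exact Or.inr (Or.inr (Or.inl ⟨k2.1, h2.1, h⟩))

theorem h69_add_le (p : TC Ω) (c : Finset Ω) (hc : p.Chn c) (S : Finset Ω)
    (hS : ∀ y ∈ S, ∀ x ∈ p.d, x < y) : h69_add p c hc S hS ≤ p := by
  refine ⟨Finset.subset_union_right, le_rfl, ?_, fun _ _ _ _ => Iff.rfl,
    fun _ _ _ _ k hk hk' => absurd hk' (not_lt.2 hk)⟩
  intro x hx y hy
  constructor
  · rintro (⟨_, _, h⟩ | ⟨h, _⟩)
    · exact h
    · exact absurd (hS y h y hy) (lt_irrefl _)
  · exact fun h => Or.inl ⟨hx, hy, h⟩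

theorem h69_add_chn (p : TC Ω) (c : Finset Ω) (hc : p.Chn c) (S : Finset Ω)
    (hS : ∀ y ∈ S, ∀ x ∈ p.d, x < y) {y : Ω} (hy : y ∈ S) :
    (h69_add p c hc S hS).Chn (insert y c) := by
  have hb : ∀ x ∈ c, h69_bel p c x := fun x hx => ⟨hc.1 hx, x, hx, Or.inl rfl⟩
  refine ⟨?_, ?_⟩
  · intro x hx
    rcases Finset.mem_insert.1 hx with rfl | hx
    · exact Finset.mem_union_left _ hy
    · exact Finset.mem_union_right _ (hc.1 hx)
  · intro x hx z hz
    rcases Finset.mem_insert.1 hx with h1 | h1 <;> rcases Finset.mem_insert.1 hz with h2 | h2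
    · exact Or.inl (h1.trans h2.symm)
    · refine Or.inr (Or.inr (Or.inr ⟨?_, hb z h2⟩))
      rw [h1]; exact hy
    · refine Or.inr (Or.inl (Or.inr ⟨?_, hb x h1⟩))
      rw [h2]; exact hy
    · rcases hc.2 x h1 z h2 with h | h | h
      · exact Or.inl h
      · exact Or.inr (Or.inl (Or.inl ⟨hc.1 h1, hc.1 h2, h⟩))
      · exact Or.inr (Or.inr (Or.inl ⟨hc.1 h2, hc.1 h1, h⟩))

/-- FR-A5: new nodes above a chain. -/
theorem exists_add (p : TC Ω) (c : Finset Ω) (hc : p.Chn c) (y : Ω) (hy : ∀ x ∈ p.d, x < y) :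
    ∃ q : TC Ω, q ≤ p ∧ q.d = insert y p.d ∧ q.Chn (insert y c) := by
  have hS : ∀ z ∈ ({y} : Finset Ω), ∀ x ∈ p.d, x < z := by
    intro z hz
    rw [Finset.mem_singleton] at hz
    rw [hz]; exact hy
  exact ⟨h69_add p c hc {y} hS, h69_add_le p c hc {y} hS, rfl,
    h69_add_chn p c hc {y} hS (Finset.mem_singleton_self y)⟩

theorem exists_add_two (p : TC Ω) (c : Finset Ω) (hc : p.Chn c) (y z : Ω)
    (hy : ∀ x ∈ p.d, x < y) (hz : ∀ x ∈ p.d, x < z) (hyz : y ≠ z) :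
    ∃ q : TC Ω, q ≤ p ∧ q.Chn (insert y c) ∧ q.Chn (insert z c) ∧ ¬ q.Cmp y z := by
  have hS : ∀ v ∈ ({y, z} : Finset Ω), ∀ x ∈ p.d, x < v := by
    intro v hv
    rcases Finset.mem_insert.1 hv with h | h
    · rw [h]; exact hy
    · rw [Finset.mem_singleton.1 h]; exact hz
  have hyd : y ∉ p.d := fun h => lt_irrefl _ (hy y h)
  have hzd : z ∉ p.d := fun h => lt_irrefl _ (hz z h)
  refine ⟨h69_add p c hc {y, z} hS, h69_add_le p c hc {y, z} hS,
    h69_add_chn p c hc {y, z} hS (Finset.mem_insert_self y _),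
    h69_add_chn p c hc {y, z} hS (Finset.mem_insert_of_mem (Finset.mem_singleton_self z)), ?_⟩
  rintro (h | h | h)
  · exact hyz h
  · rcases h with ⟨h, _⟩ | ⟨_, h, _⟩
    · exact hyd h
    · exact hyd h
  · rcases h with ⟨h, _⟩ | ⟨_, h, _⟩
    · exact hzd h
    · exact hzd h

end A

end Pool.Agent.Helper32.FR
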