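import Pool.Agent.Helper30.FR.Amalg
import Pool.Agent.Helper29.BA.CndCCC

/-! # FR-A2: the countable chain condition of the base poset -/

set_option autoImplicit false
set_option linter.unusedSectionVars false

namespace Pool.Agent.Helper32.FR

open Pool.Agent.Helper33.HM Pool.Agent.Helper94.BA

universe u

section A

variable {Ω : Type} [LinearOrder Ω]

open Classical in
/-- The isomorphism type over the root. -/
noncomputable def h69_inv (D : Finset Ω) (w : TM Ω) :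
    ℕ × (D → D → Prop) × (D → Finset ℕ) × (D → Prop) :=
  (w.1.1.n, fun x y => w.1.1.R x y,
    fun x => (Finset.range w.1.1.n).filter (fun k => w.1.1.a x k),
    fun x => ∃ u ∈ w.1.2, (x : Ω) = u ∨ w.1.1.R x u)

theorem h69_fiber {α β : Type*} [Countable β] {J : Set α} (hJ : ¬ J.Countable) (f : α → β) :
    ∃ b, ¬ {a | a ∈ J ∧ f a = b}.Countable := by
  by_contra hcon
  push Not at hcon
  apply hJ
  refine (Set.countable_iUnion hcon).mono fun p hp => ?_
  rw [Set.mem_iUnion]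
  exact ⟨f p, hp, rfl⟩

theorem h69_bad {ι : Type*} (d : ι → Finset Ω) {J : Set ι} {D : Finset Ω}
    (hJ : ∀ i ∈ J, ∀ j ∈ J, i ≠ j → d i ∩ d j = D) {C : Set Ω} (hC : C.Countable) :
    {i | i ∈ J ∧ ∃ y ∈ d i, y ∉ D ∧ y ∈ C}.Countable := by
  classical
  have hch : ∀ i : ι, ∃ y : Option Ω, (i ∈ {i | i ∈ J ∧ ∃ y ∈ d i, y ∉ D ∧ y ∈ C}) →
      ∃ z, y = some z ∧ z ∈ d i ∧ z ∉ D ∧ z ∈ C := by
    intro i
    by_cases hi : i ∈ {i | i ∈ J ∧ ∃ y ∈ d i, y ∉ D ∧ y ∈ C}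
    · obtain ⟨_, y, h1, h2, h3⟩ := hi
      exact ⟨some y, fun _ => ⟨y, rfl, h1, h2, h3⟩⟩
    · exact ⟨none, fun h => absurd h hi⟩
  choose f hf using hch
  refine Set.MapsTo.countable_of_injOn (f := f) (t := some '' C) ?_ ?_ (hC.image _)
  · intro i hi
    obtain ⟨z, h1, _, _, h4⟩ := hf i hi
    exact ⟨z, h4, h1.symm⟩
  · intro i hi j hj hij
    by_contra hne
    obtain ⟨z, h1, h2, h3, _⟩ := hf i hi
    obtain ⟨z', h1', h2', _, _⟩ := hf j hj
    have hz : z = z' := Option.some.inj (by rw [← h1, ← h1', hij])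
    subst hz
    apply h3
    rw [← hJ i hi.1 j hj.1 hne]
    exact Finset.mem_inter.2 ⟨h2, h2'⟩

/-- FR-A2: the countable chain condition. -/
theorem tm_ac (h : OmOne Ω) : AC (TM Ω) := by
  classical
  intro A hA
  by_contra hAc
  have hun : ¬ (Set.univ : Set A).Countable := by
    rw [Set.countable_univ_iff]
    exact hAc
  obtain ⟨J, hJ, D, hD⟩ := Cond.exists_delta (fun w : A => w.1.1.1.d) hun
  obtain ⟨t, ht⟩ := h69_fiber hJ (fun w : A => h69_inv D w.1)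
  set J' : Set A := {a | a ∈ J ∧ h69_inv D a.1 = t} with hJ'
  have hD' : ∀ i ∈ J', ∀ j ∈ J', i ≠ j → i.1.1.1.d ∩ j.1.1.1.d = D :=
    fun i hi j hj hij => hD i hi.1 j hj.1 hij
  have hseg : ∀ S : Finset Ω, (⋃ x ∈ S, Set.Iic x).Countable :=
    fun S => S.countable_toSet.biUnion fun x _ => h.seg x
  have b1 := h69_bad (fun w : A => w.1.1.1.d) hD' (hseg D)
  obtain ⟨p, hp, hp1⟩ : ∃ p ∈ J', ∀ y ∈ p.1.1.1.d, y ∉ D → y ∉ ⋃ x ∈ D, Set.Iic x := by
    by_contra hcon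
    push Not at hcon
    refine ht (b1.mono ?_)
    intro p hp
    exact ⟨hp, hcon p hp⟩
  have b2 := h69_bad (fun w : A => w.1.1.1.d) hD' (hseg p.1.1.1.d)
  obtain ⟨q, hq, hqp, hq1⟩ : ∃ q ∈ J', q ≠ p ∧
      ∀ y ∈ q.1.1.1.d, y ∉ D → y ∉ ⋃ x ∈ p.1.1.1.d, Set.Iic x := by
    by_contra hcon
    push Not at hcon
    refine ht ((b2.union (Set.countable_singleton p)).mono ?_)
    intro q hq
    by_cases hqp : q = p
    · exact Or.inr hqp
    · exact Or.inl ⟨hq, hcon q hq hqp⟩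
  have hinv : h69_inv D p.1 = h69_inv D q.1 := hp.2.trans hq.2.symm
  have i1 : p.1.1.1.n = q.1.1.1.n := congrArg Prod.fst hinv
  have i2 := congrArg (fun v => v.2.1) hinv
  have i3 := congrArg (fun v => v.2.2.1) hinv
  have i4 := congrArg (fun v => v.2.2.2) hinv
  have hpqD := hD' p hp q hq (Ne.symm hqp)
  have hlt : ∀ (S : Finset Ω) (x y : Ω), x ∈ S → y ∉ (⋃ x ∈ S, Set.Iic x) → x < y := by
    intro S x y hx hy
    by_contra hxy
    apply hy
    rw [Set.mem_iUnion₂]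
    exact ⟨x, hx, not_lt.1 hxy⟩
  obtain ⟨r, hr1, hr2, hr3⟩ := amalg p.1.1.1 q.1.1.1 p.1.1.2 q.1.1.2 D p.1.2 q.1.2
    (by
      intro x
      rw [← hpqD, Finset.mem_inter])
    i1
    (by
      intro x hx y hy
      have := congrFun (congrFun i2 ⟨x, hx⟩) ⟨y, hy⟩
      exact iff_of_eq this)
    (by
      intro x hx k hk
      have := congrFun i3 ⟨x, hx⟩
      have h1 : k ∈ (Finset.range p.1.1.1.n).filter (fun k => p.1.1.1.a x k) ↔
          k ∈ (Finset.range q.1.1.1.n).filter (fun k => q.1.1.1.a x k) := by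
        simp only [h69_inv] at this
        rw [this]
      simp only [Finset.mem_filter, Finset.mem_range] at h1
      rw [← i1] at h1
      exact ⟨fun h2 => (h1.1 ⟨hk, h2⟩).2, fun h2 => (h1.2 ⟨hk, h2⟩).2⟩)
    (by
      intro x hx
      have := congrFun i4 ⟨x, hx⟩
      exact iff_of_eq this)
    (fun x hx y hy hyD => hlt D x y hx (hp1 y hy hyD))
    (fun x hx y hy hyD => hlt _ x y hx (hq1 y hy hyD))
  exact hA p.1 p.2 q.1 q.2 (fun h => hqp (Subtype.ext h.symm))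
    ⟨⟨(r, p.1.1.2 ∪ q.1.1.2), hr3⟩, ⟨hr1, Finset.subset_union_left⟩,
      ⟨hr2, Finset.subset_union_right⟩⟩

theorem pb_ac (h : OmOne Ω) : AC (PB Ω) := by
  intro A hA
  by_contra hAc
  obtain ⟨p, hp, q, hq, hne, r, hr1, hr2⟩ := (tm_ac h).h29_pair hAc
    (fun p : PB Ω => (⟨(p.down, ∅), Finset.empty_subset _,
      fun x hx => absurd hx (Finset.notMem_empty x)⟩ : TM Ω))
  exact hA p hp q hq hne ⟨⟨r.1.1⟩, hr1.1, hr2.1⟩

end A

end Pool.Agent.Helper32.FR
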